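import Pool.Agent.H458.AG.Loc

/-!
# Project AG, task LAT (helper322)
-/

set_option autoImplicit false
set_option linter.all false

open Polynomial Matrix
open scoped Classical

namespace Pool.Agent.H322.AG458

open Pool.Agent.N783.PQ (LocIm)
open Pool.Agent.H458.AG

/-! ### A determinant -/

theorem det_anti {k : Type} [Field k] : ∀ (n : ℕ) (M : Matrix (Fin n) (Fin n) k),
    (∀ i j : Fin n, (i : ℕ) + j + 1 < n → M i j = 0) →
    (∀ i j : Fin n, (i : ℕ) + j + 1 = n → M i j = 1) →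
    M.det = ∏ i ∈ Finset.range n, (-1 : k) ^ i := by
  intro n
  induction n with
  | zero => intro M _ _; simp
  | succ n ih =>
    intro M h0 h1
    rw [Matrix.det_succ_row_zero, Finset.sum_eq_single (Fin.last n)]
    · rw [h1 0 (Fin.last n) (by simp), mul_one, Finset.prod_range_succ, mul_comm]
      congr 1
      refine ih _ (fun i j hij => ?_) (fun i j hij => ?_)
      · rw [Matrix.submatrix_apply, Fin.succAbove_last]
        exact h0 _ _ (by simp only [Fin.val_succ, Fin.val_castSucc]; omega)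
      · rw [Matrix.submatrix_apply, Fin.succAbove_last]
        exact h1 _ _ (by simp only [Fin.val_succ, Fin.val_castSucc]; omega)
    · intro j _ hj
      have hj' : (j : ℕ) < n := by
        have h2 : (j : ℕ) ≠ n := fun h => hj (Fin.ext h)
        have := j.2
        omega
      rw [h0 0 j (by simp only [Fin.val_zero]; omega)]
      ring
    · intro h; exact absurd (Finset.mem_univ _) h

theorem sgn_odd {k : Type} [Field k] (g : ℕ) :
    ∏ i ∈ Finset.range (2 * g + 1), (-1 : k) ^ i = (-1) ^ g := by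
  induction g with
  | zero => simp
  | succ g ih =>
    rw [show 2 * (g + 1) + 1 = (2 * g + 1) + 1 + 1 by ring, Finset.prod_range_succ,
      Finset.prod_range_succ, ih]
    have h1 : (-1 : k) ^ (2 * g + 1) = -1 := by rw [pow_succ, pow_mul]; simp
    have h2 : (-1 : k) ^ (2 * g + 1 + 1) = 1 := by rw [pow_succ, h1]; simp
    rw [h1, h2, pow_succ]
    ring

/-! ### Valuations -/

section val

variable {k : Type} [Field k] (v : Valuation k (WithZero (Multiplicative ℤ))) (π : k)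

theorem two_le : v 2 ≤ 1 := by
  have h : v (1 + 1) ≤ max (v 1) (v 1) := v.map_add 1 1
  rw [v.map_one, max_self] at h
  rwa [one_add_one_eq_two] at h

theorem pi_pow_le (hπ : v π = WithZero.exp (-1 : ℤ)) (m : ℕ) : v (π ^ m) ≤ 1 := by
  rw [map_pow]
  refine pow_le_one' ?_ m
  rw [hπ, ← WithZero.exp_zero, WithZero.exp_le_exp]
  omega

theorem pi_ne (hπ : v π = WithZero.exp (-1 : ℤ)) : π ≠ 0 := by
  rintro rfl
  rw [map_zero] at hπ
  exact WithZero.exp_ne_zero hπ.symm

theorem scale1 (hπ : v π = WithZero.exp (-1 : ℤ)) (y : k) : ∃ m : ℕ, v (π ^ m * y) ≤ 1 := by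
  by_cases hy : v y = 0
  · exact ⟨0, by rw [pow_zero, one_mul, hy]; exact zero_le_one⟩
  · refine ⟨(WithZero.log (v y)).toNat, ?_⟩
    rw [map_mul, map_pow, hπ, ← WithZero.exp_log hy, ← WithZero.exp_nsmul, ← WithZero.exp_add,
      ← WithZero.exp_zero, WithZero.exp_le_exp, WithZero.log_exp]
    rw [nsmul_eq_mul]
    have := Int.self_le_toNat (WithZero.log (v y))
    linarith

theorem scaleP (hπ : v π = WithZero.exp (-1 : ℤ)) (p : k[X]) :
    ∃ m : ℕ, ∀ j, v (π ^ m * p.coeff j) ≤ 1 := by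
  choose m hm using scale1 v π hπ
  refine ⟨∑ j ∈ p.support, m (p.coeff j), fun j => ?_⟩
  by_cases hj : j ∈ p.support
  · have h1 : m (p.coeff j) ≤ ∑ j ∈ p.support, m (p.coeff j) :=
      Finset.single_le_sum (f := fun j => m (p.coeff j)) (fun _ _ => Nat.zero_le _) hj
    obtain ⟨e, he⟩ := Nat.exists_eq_add_of_le h1
    rw [he, pow_add, mul_comm (π ^ _) (π ^ e), mul_assoc, map_mul]
    exact mul_le_one' (pi_pow_le v π hπ e) (hm _)
  · rw [Polynomial.notMem_support_iff.1 hj, mul_zero, map_zero]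
    exact zero_le_one

/-- a polynomial with integral coefficients comes from the integers -/
theorem liftP (p : k[X]) (hp : ∀ j, v (p.coeff j) ≤ 1) :
    ∃ P : (v.integer)[X], P.map (v.integer.subtype) = p := by
  have h : p ∈ Polynomial.lifts (v.integer.subtype) := by
    rw [Polynomial.lifts_iff_coeff_lifts]
    exact fun j => ⟨⟨p.coeff j, hp j⟩, rfl⟩
  exact (Polynomial.mem_lifts p).1 h

theorem liftS (hπ : v π = WithZero.exp (-1 : ℤ)) (p : k[X]) :
    ∃ (m : ℕ) (P : (v.integer)[X]), P.map (v.integer.subtype) = C (π ^ m) * p := by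
  obtain ⟨m, hm⟩ := scaleP v π hπ p
  obtain ⟨P, hP⟩ := liftP v (C (π ^ m) * p) (fun j => by
    rw [Polynomial.coeff_C_mul]; exact hm j)
  exact ⟨m, P, hP⟩

end val

/-! ### The bilinear form -/

/-- the form -/
noncomputable def frm {k : Type} [Field k] {f : k[X]} (hf : f.Monic) (g : ℕ) (β : AdjoinRoot f) :
    LinearMap.BilinForm k (AdjoinRoot f) :=
  LinearMap.mk₂ k (fun x y => tp hf g (x * y * β))
    (fun x x' y => by rw [add_mul, add_mul, map_add])
    (fun c x y => by rw [smul_mul_assoc, smul_mul_assoc, map_smul])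
    (fun x y y' => by rw [mul_add, add_mul, map_add])
    (fun c x y => by rw [mul_smul_comm, smul_mul_assoc, map_smul])

theorem frm_apply {k : Type} [Field k] {f : k[X]} (hf : f.Monic) (g : ℕ) (β x y : AdjoinRoot f) :
    frm hf g β x y = tp hf g (x * y * β) := rfl

theorem tp_mk {k : Type} [Field k] {f : k[X]} (hf : f.Monic) (g : ℕ) (p : k[X]) :
    tp hf g (AdjoinRoot.mk f p) = (p %ₘ f).coeff (2 * g) := by
  unfold tp
  rw [LinearMap.comp_apply, AdjoinRoot.modByMonicHom_mk]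
  rfl

theorem tp_pow {k : Type} [Field k] {f : k[X]} (hf : f.Monic) (g : ℕ)
    (hdeg : f.natDegree = 2 * g + 1) (m : ℕ) (hm : m ≤ 2 * g) :
    tp hf g (AdjoinRoot.root f ^ m) = if m = 2 * g then 1 else 0 := by
  have h1 : AdjoinRoot.root f ^ m = AdjoinRoot.mk f (X ^ m) := by
    rw [map_pow, AdjoinRoot.mk_X]
  have h2 : (X ^ m : k[X]) %ₘ f = X ^ m := by
    rw [Polynomial.modByMonic_eq_self_iff hf, Polynomial.degree_X_pow,
      Polynomial.degree_eq_natDegree hf.ne_zero, hdeg]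
    exact_mod_cast (by omega : m < 2 * g + 1)
  rw [h1, tp_mk, h2, Polynomial.coeff_X_pow]
  by_cases h : m = 2 * g
  · rw [if_pos h, if_pos h.symm]
  · rw [if_neg h, if_neg (Ne.symm h)]

theorem unit_of_coprime {k : Type} [Field k] {f h : k[X]} (hc : IsCoprime h f) :
    ∃ a : AdjoinRoot f, a * AdjoinRoot.mk f h = 1 := by
  obtain ⟨a, b, hab⟩ := hc
  refine ⟨AdjoinRoot.mk f a, ?_⟩
  have h1 := congrArg (AdjoinRoot.mk f) hab
  rw [map_add, map_mul, map_mul, AdjoinRoot.mk_self, mul_zero, add_zero, map_one] at h1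
  exact h1

theorem dsc {k : Type} [Field k] {f : k[X]} (hf : f.Monic) (g : ℕ)
    (hdeg : f.natDegree = 2 * g + 1) (h : k[X]) (hc : IsCoprime h f)
    (hs : IsSquare (Algebra.norm k (AdjoinRoot.mk f h))) :
    Dsc g (frm hf g (AdjoinRoot.mk f h)) := by
  set β := AdjoinRoot.mk f h with hβ
  obtain ⟨r, hr⟩ := hs
  obtain ⟨a, ha⟩ := unit_of_coprime hc
  have hr0 : r ≠ 0 := by
    rintro rfl
    have h1 := congrArg (Algebra.norm k) ha
    rw [map_mul, hr, mul_zero, mul_zero, map_one] at h1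
    exact zero_ne_one h1
  let b : Module.Basis (Fin (2 * g + 1)) k (AdjoinRoot f) :=
    (AdjoinRoot.powerBasis' hf).basis.reindex (finCongr hdeg)
  have hb : ∀ i : Fin (2 * g + 1), b i = AdjoinRoot.root f ^ (i : ℕ) := by
    intro i
    rw [Module.Basis.reindex_apply]
    exact (AdjoinRoot.powerBasis' hf).basis_eq_pow _
  refine ⟨b, r, hr0, ?_⟩
  set N : Matrix (Fin (2 * g + 1)) (Fin (2 * g + 1)) k :=
    Matrix.of fun i l => tp hf g (b i * b l) with hN
  have hG : (Matrix.of fun i j => frm hf g β (b i) (b j)) = N * Algebra.leftMulMatrix b β := by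
    ext i j
    rw [Matrix.mul_apply, Matrix.of_apply, frm_apply]
    have e1 : b i * b j * β = ∑ l, (b.repr (β * b j) l) • (b i * b l) := by
      have e2 := b.sum_repr (β * b j)
      calc b i * b j * β = b i * (β * b j) := by ring
        _ = b i * ∑ l, (b.repr (β * b j) l) • b l := by rw [e2]
        _ = _ := by
          rw [Finset.mul_sum]
          exact Finset.sum_congr rfl fun l _ => mul_smul_comm _ _ _
    rw [e1, map_sum]
    refine Finset.sum_congr rfl fun l _ => ?_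
    rw [map_smul, Algebra.leftMulMatrix_eq_repr_mul, smul_eq_mul, mul_comm]
    rfl
  rw [hG, Matrix.det_mul, ← Algebra.norm_eq_matrix_det, hr, ← pow_two]
  congr 1
  rw [← sgn_odd (k := k) g]
  have hNm : ∀ i j : Fin (2 * g + 1), (i : ℕ) + j ≤ 2 * g →
      N i j = if (i : ℕ) + j = 2 * g then 1 else 0 := by
    intro i j hij
    rw [hN, Matrix.of_apply, hb, hb, ← pow_add]
    exact tp_pow hf g hdeg _ hij
  refine det_anti _ N (fun i j hij => ?_) (fun i j hij => ?_)
  · rw [hNm i j (by omega), if_neg (by omega)]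
  · rw [hNm i j (by omega), if_pos (by omega)]

/-! ### The isotropic subspace -/

theorem iso (h2 : S_RED1) (h3 : S_RED2) (h4 : S_ISO) {k : Type} [Field k] [CharZero k]
    (g : ℕ) (f : k[X]) (hf : f.Monic) (hg : 1 ≤ g) (hdeg : f.natDegree = 2 * g + 1)
    (hsq : Squarefree f) (h : k[X]) (hc : IsCoprime h f) (hl : LocIm k f h) :
    ∃ X : Submodule k (AdjoinRoot f), Module.finrank k X = g ∧
      ∀ x ∈ X, ∀ y ∈ X, frm hf g (AdjoinRoot.mk f h) x y = 0 := by
  obtain ⟨u, t, w, s, e1, e2, e3, e4⟩ := h3 k f h hf hsq hc hl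
  obtain ⟨u', t', w', c, b, d1, d2, d3, d4, d5⟩ := h2 k g f u t w hf hdeg e1 1 0
  have hH : u' * c ^ 2 + 2 * t' * c * b + w' * b ^ 2 = u := by
    rw [d5]; ring
  obtain ⟨X, hX1, hX2⟩ := h4 k g f u' t' w' c b hf hg hdeg d1 d2 d3 d4 (by rw [hH]; exact e2)
  rw [hH] at hX2
  obtain ⟨σ, hσ⟩ := unit_of_coprime e3
  have hinj : Function.Injective (LinearMap.mulLeft k σ) := by
    intro x y hxy
    have h1 : σ * x = σ * y := hxy
    calc x = (σ * AdjoinRoot.mk f s) * x := by rw [hσ, one_mul]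
      _ = AdjoinRoot.mk f s * (σ * x) := by ring
      _ = AdjoinRoot.mk f s * (σ * y) := by rw [h1]
      _ = (σ * AdjoinRoot.mk f s) * y := by ring
      _ = y := by rw [hσ, one_mul]
  have hsqr : AdjoinRoot.mk f h * AdjoinRoot.mk f u = AdjoinRoot.mk f s ^ 2 := by
    have h1 := AdjoinRoot.mk_eq_mk.2 e4
    rwa [map_mul, map_pow] at h1
  refine ⟨X.map (LinearMap.mulLeft k σ), ?_, ?_⟩
  · rw [← (Submodule.equivMapOfInjective _ hinj X).finrank_eq, hX1]
  · rintro _ ⟨x, hx, rfl⟩ _ ⟨y, hy, rfl⟩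
    rw [frm_apply]
    refine hX2 x hx y hy _ ?_
    have h1 : LinearMap.mulLeft k σ x = σ * x := rfl
    have h5 : LinearMap.mulLeft k σ y = σ * y := rfl
    rw [h1, h5]
    calc σ * x * (σ * y) * AdjoinRoot.mk f h * AdjoinRoot.mk f u
        = (σ * x * (σ * y)) * (AdjoinRoot.mk f h * AdjoinRoot.mk f u) := by ring
      _ = (σ * AdjoinRoot.mk f s) ^ 2 * (x * y) := by rw [hsqr]; ring
      _ = x * y := by rw [hσ]; ring

/-! ### The stable integral lattice -/

theorem lattice {k : Type} [Field k] (v : Valuation k (WithZero (Multiplicative ℤ)))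
    (π : k) (hπ : v π = WithZero.exp (-1 : ℤ)) (g : ℕ) (f : k[X]) (hf : f.Monic)
    (hfi : ∀ j, v (f.coeff j) ≤ 1) (h : k[X]) :
    ∃ M : Set (AdjoinRoot f), Sub v M ∧ (∀ x ∈ M, LinearMap.mulLeft k (AdjoinRoot.root f) x ∈ M) ∧
      Itg v (frm hf g (AdjoinRoot.mk f h)) M := by
  obtain ⟨m, Hh, hHh⟩ := liftS v π hπ h
  obtain ⟨Ff, hFf⟩ := liftP v f hfi
  have hFm : Ff.Monic := Polynomial.monic_of_injective (f := v.integer.subtype)
    Subtype.coe_injective (by rw [hFf]; exact hf)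
  set a : k := π ^ m with ha
  have ha0 : a ≠ 0 := pow_ne_zero _ (pi_ne v π hπ)
  have ha1 : v a ≤ 1 := pi_pow_le v π hπ m
  set A : v.integer := ⟨a, ha1⟩ with hA
  have hAm : (C A : (v.integer)[X]).map v.integer.subtype = C a := by
    rw [Polynomial.map_C]; rfl
  refine ⟨{x | ∃ P : (v.integer)[X], x = AdjoinRoot.mk f (C a * P.map v.integer.subtype)},
    ⟨?_, ?_, ?_, ?_⟩, ?_, ?_⟩
  · exact ⟨0, by simp⟩
  · rintro _ ⟨P, rfl⟩ _ ⟨Q, rfl⟩
    exact ⟨P + Q, by rw [Polynomial.map_add, mul_add, map_add]⟩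
  · rintro r hr _ ⟨P, rfl⟩
    refine ⟨C ⟨r, hr⟩ * P, ?_⟩
    have h1 : (C (⟨r, hr⟩ : v.integer) : (v.integer)[X]).map v.integer.subtype = C r := by
      rw [Polynomial.map_C]; rfl
    rw [Polynomial.map_mul, h1, AdjoinRoot.smul_mk, Polynomial.smul_eq_C_mul]
    exact congrArg _ (by ring)
  · intro x
    obtain ⟨p, rfl⟩ := AdjoinRoot.mk_surjective x
    obtain ⟨m', P, hP⟩ := liftS v π hπ p
    refine ⟨a * π ^ m', mul_ne_zero ha0 (pow_ne_zero _ (pi_ne v π hπ)), P, ?_⟩
    rw [hP, AdjoinRoot.smul_mk, Polynomial.smul_eq_C_mul, C_mul]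
    exact congrArg _ (by ring)
  · rintro _ ⟨P, rfl⟩
    refine ⟨X * P, ?_⟩
    have h1 : LinearMap.mulLeft k (AdjoinRoot.root f)
        (AdjoinRoot.mk f (C a * P.map v.integer.subtype)) =
        AdjoinRoot.root f * AdjoinRoot.mk f (C a * P.map v.integer.subtype) := rfl
    rw [h1, ← AdjoinRoot.mk_X, ← map_mul, Polynomial.map_mul, Polynomial.map_X]
    congr 1
    ring
  · rintro _ ⟨P, rfl⟩ _ ⟨Q, rfl⟩
    rw [frm_apply, ← map_mul, ← map_mul, tp_mk]
    have h1 : C a * P.map v.integer.subtype * (C a * Q.map v.integer.subtype) * h =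
        (C A * P * Q * Hh).map v.integer.subtype := by
      rw [Polynomial.map_mul, Polynomial.map_mul, Polynomial.map_mul, hAm, hHh]
      ring
    rw [h1, ← hFf, ← Polynomial.map_modByMonic _ hFm, Polynomial.coeff_map]
    exact ((C A * P * Q * Hh %ₘ Ff).coeff (2 * g)).2

theorem lat (h1 : Pool.Agent.H458.AG.S_COMB) (h2 : Pool.Agent.H458.AG.S_RED1)
    (h3 : Pool.Agent.H458.AG.S_RED2) (h4 : Pool.Agent.H458.AG.S_ISO) :
    Pool.Agent.H458.AG.S_LAT := by
  intro k _ _ v π hπ g f hf hg hdeg hsq hfi h hc hl hs c hcv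
  obtain ⟨X, hX1, hX2⟩ := iso h2 h3 h4 g f hf hg hdeg hsq h hc hl
  haveI : Module.Finite k (AdjoinRoot f) := hf.finite_adjoinRoot
  obtain ⟨Λ, hΛ1, hΛ2⟩ := h1 g k v π hπ two_ne_zero (two_le v) (AdjoinRoot f)
    (frm hf g (AdjoinRoot.mk f h))
    (fun x y => by rw [frm_apply, frm_apply, mul_comm x y])
    (dsc hf g hdeg h hc hs) X hX1 hX2 (LinearMap.mulLeft k (AdjoinRoot.root f))
    (fun x y => by
      rw [frm_apply, frm_apply]
      congr 1
      simp only [LinearMap.mulLeft_apply]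
      ring)
    (lattice v π hπ g f hf hfi h) c hcv
  exact ⟨Λ, hΛ1, hΛ2⟩

end Pool.Agent.H322.AG458
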